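import Pool.Agent.W349.AH.P3a

/-! AHP-3: from the dyadic block to one good window. -/

set_option autoImplicit false

open Complex Filter Topology Set MeasureTheory

namespace Pool.Agent.W349.AH

open H177.Lat W202.AH
open SG (ord NZ)
open H370 (Zf mult)

/-- a starting point whose translates avoid a small set -/
lemma avoid (E : Set ℝ) (m : ℕ) (a H v : ℝ) (hv : 0 ≤ v)
    (hE : volume E ≤ ENNReal.ofReal v) (h : m * v < H) :
    ∃ t0 ∈ Set.Icc a (a + H), ∀ i < m, t0 + (i : ℝ) * H ∉ E := by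
  by_contra hno
  push Not at hno
  have hsub : Set.Icc a (a + H) ⊆ ⋃ i ∈ Finset.range m, (fun x : ℝ => x + (i : ℝ) * H) ⁻¹' E := by
    intro x hx
    obtain ⟨i, hi, hxE⟩ := hno x hx
    simp only [Set.mem_iUnion, Finset.mem_range, exists_prop]
    exact ⟨i, hi, hxE⟩
  have h1 := (measure_mono hsub).trans (measure_biUnion_finset_le (μ := volume) _ _)
  have h2 : ∀ i ∈ Finset.range m, volume ((fun x : ℝ => x + (i : ℝ) * H) ⁻¹' E) ≤
      ENNReal.ofReal v := by
    intro i _
    rw [measure_preimage_add_right]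
    exact hE
  have h3 := h1.trans (Finset.sum_le_sum h2)
  rw [Real.volume_Icc, Finset.sum_const, Finset.card_range, nsmul_eq_mul] at h3
  have e1 : a + H - a = H := by ring
  rw [e1] at h3
  have h4 : (m : ENNReal) * ENNReal.ofReal v = ENNReal.ofReal (m * v) := by
    rw [ENNReal.ofReal_mul (Nat.cast_nonneg _), ENNReal.ofReal_natCast]
  rw [h4, ENNReal.ofReal_le_ofReal_iff (mul_nonneg (Nat.cast_nonneg _) hv)] at h3
  linarith

theorem main (hRH : RiemannHypothesis) : BlockLower → LowerHigh := by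
  intro hB e θ' lam he hθ1 hθ2 hlam hlam2
  have hpi := Real.pi_pos
  set g : ℝ := 3 / 2 - θ' - lam with hg
  have hg0 : 0 < g := by rw [hg]; linarith
  obtain ⟨Ce, T1, hCe, hT1, hcrude⟩ := crude hRH e he
  obtain ⟨Cx, hCx, hcross⟩ := cross hRH e he
  obtain ⟨q, hq24, hqbig⟩ : ∃ q : ℕ, 24 ≤ q ∧ 20 * Ce / (g * e) ≤ q :=
    ⟨max 24 ⌈20 * Ce / (g * e)⌉₊, le_max_left _ _,
      (Nat.le_ceil _).trans (by exact_mod_cast le_max_right _ _)⟩
  refine ⟨q, by omega, ?_⟩
  intro δ hδ
  obtain ⟨T2, hT2, hblock⟩ := hB e θ' (g / 4) he hθ1 hθ2 (by positivity)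
  have hq0 : (24:ℝ) ≤ q := by exact_mod_cast hq24
  have hqpos : (0:ℝ) < q := by linarith
  have ev1 : ∀ᶠ T : ℝ in atTop, (q:ℝ) * q + 1 ≤ T ^ δ :=
    (tendsto_rpow_atTop hδ).eventually_ge_atTop _
  have ev2 : ∀ᶠ T : ℝ in atTop, 2 * q ≤ T ^ (1 / 2 : ℝ) :=
    (tendsto_rpow_atTop (by norm_num)).eventually_ge_atTop _
  have ev3 : ∀ᶠ T : ℝ in atTop, 64 * Real.pi * q * Cx / (g * e) ≤ Real.log T :=
    Real.tendsto_log_atTop.eventually_ge_atTop _
  have ev4 : ∀ᶠ T : ℝ in atTop, Real.log T ^ 2 ≤ T := by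
    have h1 := (isLittleO_log_rpow_atTop (show (0:ℝ) < 1 / 2 by norm_num)).bound zero_lt_one
    filter_upwards [h1, eventually_ge_atTop 1] with T h2 h3
    rw [one_mul, Real.norm_of_nonneg (Real.log_nonneg h3),
      Real.norm_of_nonneg (by positivity)] at h2
    calc Real.log T ^ 2 ≤ (T ^ (1 / 2 : ℝ)) ^ 2 :=
          pow_le_pow_left₀ (Real.log_nonneg h3) h2 2
      _ = T := by
          rw [← Real.rpow_natCast, ← Real.rpow_mul (by linarith)]
          norm_num
  obtain ⟨T3, hT3⟩ := (ev1.and (ev2.and (ev3.and ev4))).exists_forall_of_atTop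
  refine ⟨max T1 (max T2 T3), fun T hT E hE => ?_⟩
  have hTT1 : T1 ≤ T := (le_max_left _ _).trans hT
  have hTT2 : T2 ≤ T := ((le_max_left _ _).trans (le_max_right _ _)).trans hT
  obtain ⟨f1, f2, f3, f4⟩ := hT3 T (((le_max_right _ _).trans (le_max_right _ _)).trans hT)
  have hT100 : 100 ≤ T := hT1.trans hTT1
  have hTpos : 0 < T := by linarith
  have hT10 : 10 ≤ T := by linarith
  have hL : 0 < Real.log T := Real.log_pos (by linarith)
  set L := Real.log T with hLdef
  obtain ⟨U1, U2, hU1, hU1', hU2, hU2', hQ⟩ := hblock T hTT2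
  set H := T / q with hH
  have hqH : (q:ℝ) * H = T := by rw [hH]; field_simp
  have hsqrt : T ^ (1 / 2 : ℝ) * T ^ (1 / 2 : ℝ) = T := by
    rw [← Real.rpow_add hTpos]; norm_num
  have hr0 : 0 < T ^ (1 / 2 : ℝ) := Real.rpow_pos_of_pos hTpos _
  have hH2 : 2 * T ^ (1 / 2 : ℝ) ≤ H := by
    rw [hH, le_div_iff₀ hqpos]
    nlinarith
  have hr1 : 1 ≤ T ^ (1 / 2 : ℝ) := by linarith
  have hHpos : 0 < H := by linarith
  have hH24 : 24 * H ≤ T := by
    rw [← hqH]
    exact mul_le_mul_of_nonneg_right hq0 hHpos.le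
  set m : ℕ := q - 4 with hm
  have hmq : (m : ℝ) = q - 4 := by
    rw [hm]; push_cast [Nat.cast_sub (by omega : 4 ≤ q)]; ring
  -- choice of the starting point
  obtain ⟨t0, ht0, hav⟩ := avoid E m (T + H) H (T ^ (1 - δ))
    (Real.rpow_nonneg hTpos.le _) hE (by
      have h1 : T ^ (1 - δ) = T / T ^ δ := by rw [Real.rpow_sub hTpos, Real.rpow_one]
      have h2 : 0 < T ^ δ := Real.rpow_pos_of_pos hTpos _
      rw [h1, hH, ← mul_div_assoc, div_lt_div_iff₀ h2 hqpos]
      have h3 : (m:ℝ) ≤ q := by rw [hmq]; linarith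
      have h4 : (m:ℝ) * T * q ≤ T * (q * q) := by nlinarith [mul_le_mul_of_nonneg_right h3 hTpos.le]
      have h5 : T * (q * q) < T * T ^ δ := by
        apply mul_lt_mul_of_pos_left _ hTpos
        linarith
      linarith)
  obtain ⟨ht01, ht02⟩ := ht0
  set tt : ℕ → ℝ := fun i => t0 + (i : ℝ) * H with htt
  have htt0 : tt 0 = t0 := by simp [htt]
  have htts : ∀ i, tt (i + 1) = tt i + H := by
    intro i; simp only [htt]; push_cast; ring
  have httm : ∀ i, T + H ≤ tt i := by
    intro i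
    simp only [htt]
    have : 0 ≤ (i:ℝ) * H := by positivity
    linarith
  have httM : ∀ i, i ≤ m → tt i ≤ 2 * T - 2 * H := by
    intro i hi
    simp only [htt]
    have h1 : (i:ℝ) ≤ m := by exact_mod_cast hi
    have h2 : (i:ℝ) * H ≤ m * H := mul_le_mul_of_nonneg_right h1 hHpos.le
    have h3 : (m:ℝ) * H = T - 4 * H := by rw [hmq, sub_mul, hqH]
    linarith
  set Cr := Cx * (T + L ^ 2) with hCr
  have hCr0 : 0 < Cr := by positivity
  -- decomposition
  have hdec : ∀ k, k ≤ m → QQ T (tt 0) U2 e θ' ≤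
      ∑ i ∈ Finset.range k, QQ T (tt i) (tt (i + 1)) e θ' + QQ T (tt k) U2 e θ' +
        k * (2 * Cr) := by
    intro k
    induction k with
    | zero => intro _; simp
    | succ k ih =>
      intro hk
      have h1 := ih (by omega)
      have h2 := httM (k + 1) hk
      have h3 := httm k
      have h4 : tt k ≤ tt (k + 1) := by rw [htts]; linarith
      have h5 := QQ_split T (tt k) (tt (k + 1)) U2 e θ' he h4 (by linarith)
      have h6 := hcross T hT10 (tt k) (tt (k + 1)) U2 (by linarith) h4 (by linarith) hU2'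
      rw [Finset.sum_range_succ]
      push_cast
      linarith
  have hm0 := hdec m le_rfl
  have hfirst := QQ_split T U1 (tt 0) U2 e θ' he (by rw [htt0]; linarith)
    (by have := httM 0 (Nat.zero_le _); linarith)
  have hcr0 := hcross T hT10 U1 (tt 0) U2 hU1 (by rw [htt0]; linarith)
    (by have := httM 0 (Nat.zero_le _); linarith) hU2'
  -- the two end pieces
  set X := T / (2 * Real.pi) * L with hX
  have hX0 : 0 < X := by positivity
  have hHX : H * L / (2 * Real.pi) = X / q := by rw [hX, hH]; field_simp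
  have hleft : QQ T U1 (tt 0) e θ' ≤ Ce * (2 * H * L / (2 * Real.pi)) := by
    refine (QQ_le_DD T U1 (tt 0) e θ' he).trans ?_
    have h1 := hcrude T hTT1 (tt 0 - U1) (by rw [htt0]; linarith) (by rw [htt0]; linarith) U1 hU1
      (by linarith)
    have e1 : U1 + (tt 0 - U1) = tt 0 := by ring
    rw [e1] at h1
    refine h1.trans ?_
    apply mul_le_mul_of_nonneg_left _ hCe.le
    apply div_le_div_of_nonneg_right _ (by positivity)
    apply mul_le_mul_of_nonneg_right _ hL.le
    rw [htt0]; linarith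
  have hright : QQ T (tt m) U2 e θ' ≤ Ce * (3 * H * L / (2 * Real.pi)) := by
    refine (QQ_le_DD T (tt m) U2 e θ' he).trans ?_
    have h2 := httM m le_rfl
    have h3 := httm m
    have h4 : 2 * T - 3 * H ≤ tt m := by
      simp only [htt]
      have h5 : (m:ℝ) * H = T - 4 * H := by rw [hmq, sub_mul, hqH]
      linarith
    have h1 := hcrude T hTT1 (U2 - tt m) (by linarith) (by linarith) (tt m) (by linarith)
      (by linarith)
    have e1 : tt m + (U2 - tt m) = U2 := by ring
    rw [e1] at h1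
    refine h1.trans ?_
    apply mul_le_mul_of_nonneg_left _ hCe.le
    apply div_le_div_of_nonneg_right _ (by positivity)
    apply mul_le_mul_of_nonneg_right _ hL.le
    linarith
  have hends : Ce * (2 * H * L / (2 * Real.pi)) + Ce * (3 * H * L / (2 * Real.pi)) ≤
      g / 4 * e * X := by
    have e1 : Ce * (2 * H * L / (2 * Real.pi)) + Ce * (3 * H * L / (2 * Real.pi)) =
        5 * Ce * (H * L / (2 * Real.pi)) := by ring
    rw [e1, hHX]
    rw [div_le_iff₀ (by positivity)] at hqbig
    have e2 : 5 * Ce * (X / q) = 5 * Ce / q * X := by ring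
    rw [e2]
    apply mul_le_mul_of_nonneg_right _ hX0.le
    rw [div_le_iff₀ hqpos]
    linarith
  have hcrs : (m:ℝ) * (2 * Cr) + 2 * Cr ≤ g / 4 * e * X := by
    have h1 : (m:ℝ) * (2 * Cr) + 2 * Cr ≤ q * (2 * Cr) := by
      have : (m:ℝ) + 1 ≤ q := by rw [hmq]; linarith
      nlinarith
    have h2 : Cr ≤ Cx * (2 * T) := by
      rw [hCr]
      apply mul_le_mul_of_nonneg_left _ hCx.le
      linarith
    have h3 : (q:ℝ) * (2 * Cr) ≤ q * (2 * (Cx * (2 * T))) := by
      apply mul_le_mul_of_nonneg_left _ hqpos.le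
      linarith
    have h4 : (q:ℝ) * (2 * (Cx * (2 * T))) ≤ g / 4 * e * X := by
      rw [div_le_iff₀ (by positivity)] at f3
      rw [hX]
      have e1 : g / 4 * e * (T / (2 * Real.pi) * L) = (L * (g * e)) * T / (8 * Real.pi) := by
        field_simp
        ring
      rw [e1, le_div_iff₀ (by positivity)]
      have h5 := mul_le_mul_of_nonneg_right f3 hTpos.le
      have e2 : (q:ℝ) * (2 * (Cx * (2 * T))) * (8 * Real.pi) = 32 * (Real.pi * q * Cx * T) := by
        ring
      have e3 : 64 * Real.pi * q * Cx * T = 64 * (Real.pi * q * Cx * T) := by ring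
      have h6 : 0 < Real.pi * q * Cx * T := by positivity
      rw [e3] at h5
      rw [e2]
      linarith
    linarith
  -- conclusion
  have hmain : (lam + g / 4) * e * X ≤ ∑ i ∈ Finset.range m, QQ T (tt i) (tt (i + 1)) e θ' := by
    have e1 : (3 / 2 - θ' - g / 4) * e * X =
        (lam + g / 4) * e * X + g / 4 * e * X + g / 4 * e * X := by rw [hg]; ring
    have h1 : (3 / 2 - θ' - g / 4) * e * X ≤ QQ T U1 U2 e θ' := hQ
    rw [e1] at h1
    linarith
  by_contra hno
  push Not at hno
  have hall : ∀ i ∈ Finset.range m, QQ T (tt i) (tt (i + 1)) e θ' ≤ lam * e * (X / q) := by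
    intro i hi
    rw [Finset.mem_range] at hi
    have h1 := httM i hi.le
    have h2 := httm i
    have h3 := hno (tt i) ⟨by linarith, by linarith⟩ (hav i hi)
    rw [htts]
    have e1 : T / q * L / (2 * Real.pi) = X / q := by rw [← hHX, hH]
    rw [e1] at h3
    exact h3.le
  have h1 := Finset.sum_le_sum hall
  rw [Finset.sum_const, Finset.card_range, nsmul_eq_mul] at h1
  have h2 : (m:ℝ) * (lam * e * (X / q)) ≤ lam * e * X := by
    have e1 : lam * e * X = q * (lam * e * (X / q)) := by field_simp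
    rw [e1]
    apply mul_le_mul_of_nonneg_right _ (by positivity)
    rw [hmq]; linarith
  have h3 : 0 < g / 4 * e * X := by positivity
  have e2 : (lam + g / 4) * e * X = lam * e * X + g / 4 * e * X := by ring
  linarith

end Pool.Agent.W349.AH
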