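import Pool.Agent.W202.AH.Stm

/-! AHP-3: from the dyadic block to one good window; preparations. -/

set_option autoImplicit false

open Complex Filter Topology Set MeasureTheory

namespace Pool.Agent.W349.AH

open H177.Lat W202.AH
open SG (ord NZ)
open H370 (Zf mult)

/-- double sum of the kernel -/
noncomputable def DD (T e A B A' B' : ℝ) : ℝ :=
  ∑ n ∈ Finset.Ioc (NZ A) (NZ B), ∑ n' ∈ Finset.Ioc (NZ A') (NZ B'), KK e (yy T n - yy T n')

lemma KK_even (e x : ℝ) : KK e (-x) = KK e x := by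
  unfold KK
  congr 1
  funext u
  rw [mul_neg, Real.cos_neg]

lemma QQ_le_DD (T A B e τ : ℝ) (he : 0 < e) : QQ T A B e τ ≤ DD T e A B A B := by
  unfold QQ DD
  refine Finset.sum_le_sum fun n _ => Finset.sum_le_sum fun n' _ => ?_
  exact mul_le_of_le_one_right (KK_nonneg he _) (Real.cos_le_one _)

lemma QQ_split (T A B C e τ : ℝ) (he : 0 < e) (hAB : A ≤ B) (hBC : B ≤ C) :
    QQ T A C e τ ≤ QQ T A B e τ + QQ T B C e τ + 2 * DD T e A B B C := by
  unfold QQ DD
  set f : ℕ → ℕ → ℝ := fun n n' =>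
    KK e (yy T n - yy T n') * Real.cos (2 * Real.pi * τ * (yy T n - yy T n')) with hf
  have hsymm : ∀ n n', f n n' = f n' n := by
    intro n n'
    simp only [hf]
    have e1 : yy T n - yy T n' = -(yy T n' - yy T n) := by ring
    rw [e1, KK_even, mul_neg, Real.cos_neg]
  have h1 := SG.NZ_mono hAB
  have h2 := SG.NZ_mono hBC
  have hle : ∑ n ∈ Finset.Ioc (NZ A) (NZ B), ∑ n' ∈ Finset.Ioc (NZ B) (NZ C), f n n' ≤
      ∑ n ∈ Finset.Ioc (NZ A) (NZ B), ∑ n' ∈ Finset.Ioc (NZ B) (NZ C),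
        KK e (yy T n - yy T n') := by
    refine Finset.sum_le_sum fun n _ => Finset.sum_le_sum fun n' _ => ?_
    exact mul_le_of_le_one_right (KK_nonneg he _) (Real.cos_le_one _)
  have hsw : ∑ n ∈ Finset.Ioc (NZ B) (NZ C), ∑ n' ∈ Finset.Ioc (NZ A) (NZ B), f n n' =
      ∑ n ∈ Finset.Ioc (NZ A) (NZ B), ∑ n' ∈ Finset.Ioc (NZ B) (NZ C), f n n' := by
    rw [Finset.sum_comm]
    exact Finset.sum_congr rfl fun n _ => Finset.sum_congr rfl fun n' _ => hsymm _ _
  have hsp : ∑ n ∈ Finset.Ioc (NZ A) (NZ C), ∑ n' ∈ Finset.Ioc (NZ A) (NZ C), f n n' =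
      ∑ n ∈ Finset.Ioc (NZ A) (NZ B), ∑ n' ∈ Finset.Ioc (NZ A) (NZ B), f n n' +
      ∑ n ∈ Finset.Ioc (NZ B) (NZ C), ∑ n' ∈ Finset.Ioc (NZ B) (NZ C), f n n' +
      2 * ∑ n ∈ Finset.Ioc (NZ A) (NZ B), ∑ n' ∈ Finset.Ioc (NZ B) (NZ C), f n n' := by
    have e1 : ∀ n, ∑ n' ∈ Finset.Ioc (NZ A) (NZ C), f n n' =
        ∑ n' ∈ Finset.Ioc (NZ A) (NZ B), f n n' + ∑ n' ∈ Finset.Ioc (NZ B) (NZ C), f n n' :=
      fun n => (Finset.sum_Ioc_consecutive _ h1 h2).symm
    simp only [e1]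
    rw [← Finset.sum_Ioc_consecutive _ h1 h2, Finset.sum_add_distrib, Finset.sum_add_distrib, hsw]
    ring
  rw [hsp]
  linarith

/-- total weight of the pairs -/
lemma pairW (hRH : RiemannHypothesis) : ∃ C : ℝ, 0 < C ∧ ∀ T : ℝ, 10 ≤ T → ∀ A B : ℝ,
    T ≤ A → B ≤ 2 * T →
    ∑ n ∈ Finset.Ioc (NZ A) (NZ B), ∑ n' ∈ Finset.Ioc (NZ A) (NZ B),
      1 / (1 + (ord n - ord n') ^ 2) ≤ C * (T * Real.log T ^ 2) := by
  obtain ⟨Cw, hCw, hw⟩ := H370.A2.pair_weight H370.good_zeta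
  obtain ⟨C3, hC3, h3⟩ := NZ_three
  refine ⟨Cw * C3, by positivity, fun T hT A B hA hB => ?_⟩
  have hA1 : 1 ≤ A := by linarith
  have hL : 0 < Real.log T := Real.log_pos (by linarith)
  have h1 := hw T hT A B hA (by linarith)
  rw [double_conv hRH hA1 (fun x x' => 1 / (1 + (x - x') ^ 2))] at h1
  have h2 : (H370.NN riemannZeta A B : ℝ) ≤ C3 * (T * Real.log T) := by
    have e1 : (H370.NN riemannZeta A B : ℝ) =
        ∑ s ∈ Zf riemannZeta A B, (mult riemannZeta s : ℝ) * 1 := by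
      rw [H370.NN_eq H370.good_zeta hA1]
      push_cast
      simp
    rw [e1, sum_conv hRH hA1 (fun _ => 1)]
    rw [Finset.sum_const, nsmul_eq_mul, mul_one, Nat.card_Ioc]
    refine le_trans ?_ (h3 T (by linarith))
    have h4 : NZ B - NZ A ≤ NZ (3 * T) :=
      (Nat.sub_le _ _).trans (SG.NZ_mono (by linarith))
    exact_mod_cast h4
  refine h1.trans ?_
  calc Cw * Real.log T * (H370.NN riemannZeta A B : ℝ) ≤
        Cw * Real.log T * (C3 * (T * Real.log T)) :=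
      mul_le_mul_of_nonneg_left h2 (by positivity)
    _ = _ := by ring

/-- few ordinates in a short interval -/
lemma nearC : ∃ C : ℝ, 0 < C ∧ ∀ T : ℝ, 10 ≤ T → ∀ p : ℝ, T ≤ p → p ≤ 2 * T →
    ((Finset.Ioc (NZ (p - 1)) (NZ (p + 1))).card : ℝ) ≤ C * Real.log T := by
  obtain ⟨C, hC, hz⟩ := H370.zcount H370.good_zeta
  refine ⟨2 * C, by positivity, fun T hT p hp1 hp2 => ?_⟩
  rw [Nat.card_Ioc]
  have h1 := SG.NZ_le_add (p - 1) (p + 1) (by linarith)
  have h2 : NZ (p + 1) - NZ (p - 1) ≤ H370.NN riemannZeta (p - 1) (p + 1) := by omega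
  have h3 := hz p (by linarith)
  have h4 : Real.log p ≤ 2 * Real.log T := by
    have : Real.log p ≤ Real.log (T ^ 2) := Real.log_le_log (by linarith) (by nlinarith)
    rw [Real.log_pow] at this
    push_cast at this
    exact this
  calc ((NZ (p + 1) - NZ (p - 1) : ℕ) : ℝ) ≤ H370.NN riemannZeta (p - 1) (p + 1) := by
        exact_mod_cast h2
    _ ≤ C * Real.log p := h3
    _ ≤ C * (2 * Real.log T) := mul_le_mul_of_nonneg_left h4 hC.le
    _ = _ := by ring

lemma far_KK (e : ℝ) (he : 0 < e) (T : ℝ) (hT : 10 ≤ T) (n n' : ℕ) (h : 1 ≤ |ord n - ord n'|) :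
    KK e (yy T n - yy T n') ≤
      8 * Real.pi ^ 2 / (e * Real.log T ^ 2) * (1 / (1 + (ord n - ord n') ^ 2)) := by
  have hL : 0 < Real.log T := Real.log_pos (by linarith)
  have hpi := Real.pi_pos
  have h1 := KK_sq he (yy T n - yy T n')
  have h2 : (yy T n - yy T n') ^ 2 = (ord n - ord n') ^ 2 * (Real.log T ^ 2 / (4 * Real.pi ^ 2)) := by
    unfold yy
    field_simp
    ring
  rw [h2] at h1
  set K := KK e (yy T n - yy T n') with hK
  have hK0 : 0 ≤ K := KK_nonneg he _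
  set D2 := (ord n - ord n') ^ 2 with hD2
  have hD : 1 ≤ D2 := by
    rw [hD2, ← sq_abs]
    nlinarith
  rw [mul_one_div, le_div_iff₀ (by positivity), le_div_iff₀ (by positivity)]
  have h3 : K * (D2 * (Real.log T ^ 2 / (4 * Real.pi ^ 2))) * (e * (4 * Real.pi ^ 2)) =
      K * D2 * (e * Real.log T ^ 2) := by
    field_simp
  have h4 : 1 / e * (e * (4 * Real.pi ^ 2)) = 4 * Real.pi ^ 2 := by field_simp
  have h5 := mul_le_mul_of_nonneg_right h1 (show 0 ≤ e * (4 * Real.pi ^ 2) by positivity)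
  rw [h3, h4] at h5
  have h6 : K * (1 + D2) * (e * Real.log T ^ 2) ≤ K * (2 * D2) * (e * Real.log T ^ 2) := by
    apply mul_le_mul_of_nonneg_right _ (by positivity)
    exact mul_le_mul_of_nonneg_left (by linarith) hK0
  linarith

/-- the pairs on both sides of a point -/
lemma cross (hRH : RiemannHypothesis) (e : ℝ) (he : 0 < e) : ∃ C : ℝ, 0 < C ∧ ∀ T : ℝ, 10 ≤ T →
    ∀ A p B : ℝ, T ≤ A → A ≤ p → p ≤ B → B ≤ 2 * T →
    DD T e A p p B ≤ C * (T + Real.log T ^ 2) := by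
  classical
  obtain ⟨C1, hC1, h1⟩ := pairW hRH
  obtain ⟨C2, hC2, h2⟩ := nearC
  have hpi := Real.pi_pos
  refine ⟨8 * Real.pi ^ 2 / e * C1 + e * C2 ^ 2, by positivity,
    fun T hT A p B hA hAp hpB hB => ?_⟩
  have hL : 0 < Real.log T := Real.log_pos (by linarith)
  set N := Finset.Ioc (NZ (p - 1)) (NZ (p + 1)) with hN
  set S := Finset.Ioc (NZ A) (NZ p) with hS
  set S' := Finset.Ioc (NZ p) (NZ B) with hS'
  set S0 := Finset.Ioc (NZ A) (NZ B) with hS0
  set k1 := 8 * Real.pi ^ 2 / (e * Real.log T ^ 2) with hk1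
  have hk1p : 0 < k1 := by positivity
  have hmA := SG.NZ_mono hAp
  have hmB := SG.NZ_mono hpB
  have hpt : ∀ n ∈ S, ∀ n' ∈ S', KK e (yy T n - yy T n') ≤
      k1 * (1 / (1 + (ord n - ord n') ^ 2)) +
        e * ((if n ∈ N then 1 else 0) * (if n' ∈ N then 1 else 0)) := by
    intro n hn n' hn'
    rw [hS, Finset.mem_Ioc] at hn
    rw [hS', Finset.mem_Ioc] at hn'
    have o1 : ord n ≤ p := (SG.ord_le_iff (by omega) p).mpr hn.2
    have o2 : p < ord n' := by
      by_contra hcon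
      push Not at hcon
      have := (SG.ord_le_iff (by omega : 1 ≤ n') p).mp hcon
      omega
    by_cases hD : 1 ≤ |ord n - ord n'|
    · have h3 := far_KK e he T hT n n' hD
      have h4 : (0 : ℝ) ≤ e * ((if n ∈ N then 1 else 0) * (if n' ∈ N then 1 else 0)) := by
        apply mul_nonneg he.le
        apply mul_nonneg <;> split_ifs <;> norm_num
      linarith
    · push Not at hD
      rw [abs_lt] at hD
      have hnN : n ∈ N := by
        rw [hN, Finset.mem_Ioc]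
        constructor
        · by_contra hcon
          push Not at hcon
          have := (SG.ord_le_iff (by omega : 1 ≤ n) (p - 1)).mpr hcon
          linarith [hD.1]
        · exact hn.2.trans (SG.NZ_mono (by linarith))
      have hnN' : n' ∈ N := by
        rw [hN, Finset.mem_Ioc]
        constructor
        · exact lt_of_le_of_lt (SG.NZ_mono (by linarith)) hn'.1
        · exact (SG.ord_le_iff (by omega : 1 ≤ n') (p + 1)).mp (by linarith [hD.1])
      rw [if_pos hnN, if_pos hnN']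
      have h3 := KK_le he (yy T n - yy T n')
      have h4 : 0 ≤ k1 * (1 / (1 + (ord n - ord n') ^ 2)) := by positivity
      linarith
  have hsum : DD T e A p p B ≤ ∑ n ∈ S, ∑ n' ∈ S', (k1 * (1 / (1 + (ord n - ord n') ^ 2)) +
        e * ((if n ∈ N then 1 else 0) * (if n' ∈ N then 1 else 0))) :=
    Finset.sum_le_sum fun n hn => Finset.sum_le_sum fun n' hn' => hpt n hn n' hn'
  have hA1 : ∑ n ∈ S, ∑ n' ∈ S', k1 * (1 / (1 + (ord n - ord n') ^ 2)) ≤
      k1 * (C1 * (T * Real.log T ^ 2)) := by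
    have hsub : S ⊆ S0 := Finset.Ioc_subset_Ioc le_rfl hmB
    have hsub' : S' ⊆ S0 := Finset.Ioc_subset_Ioc hmA le_rfl
    calc ∑ n ∈ S, ∑ n' ∈ S', k1 * (1 / (1 + (ord n - ord n') ^ 2)) =
          k1 * ∑ n ∈ S, ∑ n' ∈ S', (1 / (1 + (ord n - ord n') ^ 2)) := by
          rw [Finset.mul_sum]
          exact Finset.sum_congr rfl fun n _ => (Finset.mul_sum _ _ _).symm
      _ ≤ k1 * ∑ n ∈ S0, ∑ n' ∈ S0, (1 / (1 + (ord n - ord n') ^ 2)) := by
          apply mul_le_mul_of_nonneg_left _ hk1p.le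
          calc ∑ n ∈ S, ∑ n' ∈ S', (1 / (1 + (ord n - ord n') ^ 2)) ≤
                ∑ n ∈ S, ∑ n' ∈ S0, (1 / (1 + (ord n - ord n') ^ 2)) :=
                Finset.sum_le_sum fun n _ =>
                  Finset.sum_le_sum_of_subset_of_nonneg hsub' fun _ _ _ => by positivity
            _ ≤ _ := Finset.sum_le_sum_of_subset_of_nonneg hsub fun _ _ _ =>
                Finset.sum_nonneg fun _ _ => by positivity
      _ ≤ _ := mul_le_mul_of_nonneg_left (h1 T hT A B hA hB) hk1p.le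
  have hind : ∀ Q : Finset ℕ, ∑ n ∈ Q, (if n ∈ N then (1:ℝ) else 0) ≤ (N.card : ℝ) := by
    intro Q
    rw [← Finset.sum_filter, Finset.sum_const, nsmul_eq_mul, mul_one]
    have : (Q.filter (fun n => n ∈ N)) ⊆ N := fun n hn => (Finset.mem_filter.1 hn).2
    exact_mod_cast Finset.card_le_card this
  have hA2 : ∑ n ∈ S, ∑ n' ∈ S', e * ((if n ∈ N then (1:ℝ) else 0) * (if n' ∈ N then 1 else 0)) ≤
      e * (C2 * Real.log T) ^ 2 := by
    have e1 : ∑ n ∈ S, ∑ n' ∈ S', e * ((if n ∈ N then (1:ℝ) else 0) * (if n' ∈ N then 1 else 0)) =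
        e * ((∑ n ∈ S, (if n ∈ N then (1:ℝ) else 0)) * ∑ n' ∈ S', (if n' ∈ N then (1:ℝ) else 0)) := by
      rw [Finset.sum_mul_sum, Finset.mul_sum]
      exact Finset.sum_congr rfl fun n _ => (Finset.mul_sum _ _ _).symm
    rw [e1]
    apply mul_le_mul_of_nonneg_left _ he.le
    have h3 := h2 T hT p (by linarith) (by linarith)
    have h4 : (0:ℝ) ≤ ∑ n' ∈ S', (if n' ∈ N then (1:ℝ) else 0) :=
      Finset.sum_nonneg fun _ _ => by split_ifs <;> norm_num
    rw [pow_two]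
    exact mul_le_mul ((hind S).trans h3) ((hind S').trans h3) h4 (by positivity)
  refine hsum.trans ?_
  simp only [Finset.sum_add_distrib]
  refine (add_le_add hA1 hA2).trans ?_
  have e2 : k1 * (C1 * (T * Real.log T ^ 2)) = 8 * Real.pi ^ 2 / e * C1 * T := by
    rw [hk1]
    field_simp
  rw [e2]
  have e3 : (8 * Real.pi ^ 2 / e * C1 + e * C2 ^ 2) * (T + Real.log T ^ 2) =
      8 * Real.pi ^ 2 / e * C1 * T + e * (C2 * Real.log T) ^ 2 +
      (8 * Real.pi ^ 2 / e * C1 * Real.log T ^ 2 + e * C2 ^ 2 * T) := by ring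
  rw [e3]
  have : 0 ≤ 8 * Real.pi ^ 2 / e * C1 * Real.log T ^ 2 + e * C2 ^ 2 * T := by
    have : 0 < T := by linarith
    positivity
  linarith

/-- crude bound for the pair sum of a window -/
lemma crude (hRH : RiemannHypothesis) (e : ℝ) (he : 0 < e) : ∃ C T0 : ℝ, 0 < C ∧ 100 ≤ T0 ∧
    ∀ T : ℝ, T0 ≤ T → ∀ H : ℝ, T ^ (1 / 2 : ℝ) ≤ H → H ≤ T / 8 → ∀ t : ℝ, T ≤ t → t ≤ 2 * T →
    DD T e t (t + H) t (t + H) ≤ C * (H * Real.log T / (2 * Real.pi)) := by
  classical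
  obtain ⟨C1, T1, hC1, hT1, h1⟩ := third hRH (1 / 2) 1 (by norm_num) (by norm_num) (by norm_num)
  obtain ⟨C2, T2, hC2, hT2, h2⟩ := third hRH (1 / 2) 2 (by norm_num) (by norm_num) (by norm_num)
  refine ⟨8 / e * C1 + e * C2, max T1 T2, by positivity, hT1.trans (le_max_left _ _),
    fun T hT H hH1 hH2 t ht1 ht2 => ?_⟩
  have g1 := h1 T ((le_max_left _ _).trans hT) H hH1 hH2 t ht1 ht2
  have g2 := h2 T ((le_max_right _ _).trans hT) H hH1 hH2 t ht1 ht2
  set I := Finset.Ioc (NZ t) (NZ (t + H)) with hI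
  set y := yy T with hy
  set M := H * Real.log T / (2 * Real.pi) with hM
  have hpt : ∀ n ∈ I, ∑ n' ∈ I, KK e (y n - y n') ≤
      1 / e * (∑ n' ∈ I.filter (fun n' => ((2 : ℕ) : ℝ) < |y n - y n'|), 1 / (y n - y n') ^ 2) +
      e * (kI I y 2 n : ℝ) := by
    intro n _
    rw [← Finset.sum_filter_add_sum_filter_not I (fun n' => ((2 : ℕ) : ℝ) < |y n - y n'|)]
    refine add_le_add ?_ ?_
    · rw [Finset.mul_sum]
      refine Finset.sum_le_sum fun n' hn' => ?_
      have h3 := (Finset.mem_filter.1 hn').2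
      have h4 : 0 < (y n - y n') ^ 2 := by
        rw [← sq_abs]
        have : (0:ℝ) < |y n - y n'| := lt_trans (by norm_num) h3
        positivity
      rw [mul_one_div, le_div_iff₀ h4]
      exact KK_sq he _
    · have h3 : ∑ n' ∈ I.filter (fun n' => ¬ ((2 : ℕ) : ℝ) < |y n - y n'|), KK e (y n - y n') ≤
          ∑ n' ∈ I.filter (fun n' => ¬ ((2 : ℕ) : ℝ) < |y n - y n'|), e :=
        Finset.sum_le_sum fun n' _ => KK_le he _
      rw [Finset.sum_const, nsmul_eq_mul] at h3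
      have h4 : (I.filter (fun n' => ¬ ((2 : ℕ) : ℝ) < |y n - y n'|)).card = kI I y 2 n := by
        unfold kI
        simp only [not_lt, Nat.cast_ofNat]
      rw [h4] at h3
      linarith
  have hfar := far_pairs I y 2 le_rfl
  have hk : ∀ ρ : ℝ, ∑ n ∈ I, (kI I y ρ n : ℝ) ≤ ∑ n ∈ I, (kI I y ρ n : ℝ) ^ 2 := by
    intro ρ
    refine Finset.sum_le_sum fun n _ => ?_
    have h3 : ((kI I y ρ n : ℕ) : ℝ) ≤ ((kI I y ρ n ^ 2 : ℕ) : ℝ) := by
      exact_mod_cast Nat.le_self_pow (by norm_num) _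
    push_cast at h3
    exact h3
  have k1 := (hk 1).trans g1
  have k2 := (hk 2).trans g2
  unfold DD
  refine (Finset.sum_le_sum hpt).trans ?_
  rw [Finset.sum_add_distrib, ← Finset.mul_sum, ← Finset.mul_sum]
  have h5 : 1 / e * (∑ n ∈ I, ∑ n' ∈ I.filter (fun n' => ((2 : ℕ) : ℝ) < |y n - y n'|),
      1 / (y n - y n') ^ 2) ≤ 1 / e * (16 / ((2 : ℕ) : ℝ) * (C1 * M)) := by
    apply mul_le_mul_of_nonneg_left _ (by positivity)
    exact hfar.trans (mul_le_mul_of_nonneg_left k1 (by positivity))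
  have h6 : e * ∑ n ∈ I, (kI I y 2 n : ℝ) ≤ e * (C2 * M) := mul_le_mul_of_nonneg_left k2 he.le
  refine (add_le_add h5 h6).trans (le_of_eq ?_)
  push_cast
  field_simp
  ring

end Pool.Agent.W349.AH
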